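import Pool.Agent.Helper68.LD.WB1
import Pool.Agent.Helper34.LD2.WA2

/-!
# Project LD2, block WB21: increments of the martingale and their second moments, general families
-/

set_option autoImplicit false

namespace Pool.Agent.Helper68.LD2

open Set MeasureTheory Filter Topology
open Pool.Agent.Helper33.LD (ii_of_bdd measurable_haar measurable_ind ind_nonneg ind_le_one haar_abs)
open Pool.Agent.Helper41.LD (av var ind haar idx)
open Pool.Agent.Helper68.LD (av_children sum_av_sub_sq_le abs_haar_le_ind child_mem)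
open Pool.Agent.Helper41.LD2
open Pool.Agent.Helper34.LD2 (A_le_one A_le M_tail A_const)

variable {U : ℕ → ℝ → ℝ} {β : ℝ}

theorem ii_ind_U (hU : ∀ j, Measurable (U j)) (k i j : ℕ) (a b : ℝ) :
    IntervalIntegrable (fun x => ind k i (U j x)) volume a b := by
  refine ii_of_bdd ((measurable_ind k i).comp (hU j)) (fun t => ?_) a b
  show |ind k i (U j t)| ≤ 1
  rw [abs_of_nonneg (ind_nonneg k i _)]
  exact ind_le_one k i _

theorem ii_haar_U (hU : ∀ j, Measurable (U j)) (k i j : ℕ) (a b : ℝ) :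
    IntervalIntegrable (fun x => haar k i (U j x)) volume a b :=
  ii_of_bdd ((measurable_haar k i).comp (hU j)) (fun _ => haar_abs k i _) a b

theorem abs_A_le_av_ind (hU : ∀ j, Measurable (U j)) (k i j : ℕ) (a : ℝ) {ℓ : ℝ} (hℓ : 0 < ℓ) :
    |A U k i j a ℓ| ≤ av (fun x => ind k i (U j x)) a ℓ := by
  unfold A av
  rw [abs_div, abs_of_pos hℓ]
  refine div_le_div_of_nonneg_right ?_ hℓ.le
  refine (intervalIntegral.abs_integral_le_integral_abs (by linarith)).trans ?_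
  exact intervalIntegral.integral_mono_on (by linarith) (ii_haar_U hU k i j _ _).abs (ii_ind_U hU k i j _ _)
    fun x _ => abs_haar_le_ind k i _

theorem av_ind_le {n m : ℕ} {a ℓ : ℝ} (hw : Wd U β n m a ℓ) (k i : ℕ) {j : ℕ} (hj : n ≤ j) (hjm : j < m) :
    av (fun x => ind k i (U j x)) a ℓ ≤ 4 * (1 / 2) ^ k := by
  unfold av
  rw [div_le_iff₀ hw.pos]
  exact hw.ind_le k i j hj hjm

/-- an increment of one average -/
noncomputable def dA (U : ℕ → ℝ → ℝ) (k i j : ℕ) (a ℓ : ℝ) (B b : ℕ) : ℝ :=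
  A U k i j (a + b * (ℓ / B)) (ℓ / B) - A U k i j a ℓ

/-- the difference of the tails -/
noncomputable def dT (U : ℕ → ℝ → ℝ) (k i m : ℕ) (a ℓ : ℝ) (B b : ℕ) : ℝ :=
  (M U k i (a + b * (ℓ / B)) (ℓ / B) - ∑ j ∈ Finset.range m, A U k i j (a + b * (ℓ / B)) (ℓ / B)) -
    (M U k i a ℓ - ∑ j ∈ Finset.range m, A U k i j a ℓ)

theorem inc_eq {n L r K : ℕ} {a ℓ : ℝ} (hℓ : 0 < ℓ) (h : NB U n r K a ℓ) {k : ℕ} (hk : k < K) (i : ℕ)
    {B b : ℕ} (hb : b < B) :
    M U k i (a + b * (ℓ / B)) (ℓ / B) - M U k i a ℓ =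
      ∑ j ∈ Finset.Ico (n - r) (n + L), dA U k i j a ℓ B b + dT U k i (n + L) a ℓ B b := by
  obtain ⟨h1, h2, h3⟩ := child_mem (a := a) hℓ hb
  have hz : ∑ j ∈ Finset.range (n - r), dA U k i j a ℓ B b = 0 := by
    refine Finset.sum_eq_zero fun j hj => ?_
    have hj' : j + r < n := by
      have := Finset.mem_range.mp hj
      omega
    unfold dA
    rw [A_const h hk i hj' h1 h2 h3, A_const h hk i hj' le_rfl hℓ le_rfl, sub_self]
  have hs : ∑ j ∈ Finset.range (n + L), dA U k i j a ℓ B b =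
      ∑ j ∈ Finset.Ico (n - r) (n + L), dA U k i j a ℓ B b := by
    rw [← Finset.sum_range_add_sum_Ico _ (show n - r ≤ n + L by omega), hz, zero_add]
  rw [← hs]
  unfold dA dT
  rw [Finset.sum_sub_distrib]
  ring

theorem dT_le (hβ : 1 < β) {n m m' L : ℕ} {a ℓ : ℝ} (hw : Wd U β n m a ℓ) (k i : ℕ) {B b : ℕ}
    (hw' : Wd U β (n + L) m' (a + b * (ℓ / B)) (ℓ / B)) :
    |dT U k i (n + L) a ℓ B b| ≤ 2 * ((1 / 2) ^ k * (β / (β - 1))) := by
  unfold dT
  have h1 := M_tail hβ hw' k i (le_refl (n + L))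
  rw [Nat.sub_self, pow_zero, mul_one] at h1
  have h2 := M_tail hβ hw k i (Nat.le_add_right n L)
  have hc : 0 ≤ β / (β - 1) := div_nonneg (by linarith) (by linarith)
  have h4 : (0:ℝ) < (1 / 2) ^ k := by positivity
  have h5 : β⁻¹ ^ (n + L - n) ≤ 1 := pow_le_one₀ (inv_nonneg.2 (by linarith)) (inv_le_one_of_one_le₀ hβ.le)
  have h6 : (1 / 2 : ℝ) ^ k * β⁻¹ ^ (n + L - n) * (β / (β - 1)) ≤ (1 / 2) ^ k * (β / (β - 1)) :=
    mul_le_mul_of_nonneg_right (mul_le_of_le_one_right h4.le h5) hc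
  refine (abs_sub _ _).trans ?_
  linarith

theorem dA_le (hU : ∀ j, Measurable (U j)) (k i j : ℕ) {a ℓ : ℝ} (hℓ : 0 < ℓ) {B b : ℕ} (hb : b < B) :
    |dA U k i j a ℓ B b| ≤ 2 := by
  unfold dA
  obtain ⟨h1, h2, h3⟩ := child_mem (a := a) hℓ hb
  refine (abs_sub _ _).trans ?_
  linarith [A_le_one hU k i j (a + b * (ℓ / B)) h2, A_le_one hU k i j a hℓ]

/-- increments -/
theorem M_inc (hβ : 1 < β) {n m m' L r K : ℕ} {a ℓ : ℝ} (hw : Wd U β n m a ℓ) (h : NB U n r K a ℓ) {k : ℕ} (hk : k < K) (i : ℕ)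
    {B : ℕ} (hB : 1 ≤ B) {b : ℕ} (hb : b < B) (hw' : Wd U β (n + L) m' (a + b * (ℓ / B)) (ℓ / B)) :
    |M U k i (a + b * (ℓ / B)) (ℓ / B) - M U k i a ℓ| ≤ 2 * (L + r) + 2 * (β / (β - 1)) := by
  have hℓ := hw.pos
  rw [inc_eq hℓ h hk i hb]
  have hc : 0 ≤ β / (β - 1) := div_nonneg (by linarith) (by linarith)
  have h5 : (1 / 2 : ℝ) ^ k ≤ 1 := pow_le_one₀ (by norm_num) (by norm_num)
  have h1 := dT_le hβ hw k i hw'
  have h2 : (1 / 2 : ℝ) ^ k * (β / (β - 1)) ≤ β / (β - 1) := by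
    calc (1 / 2 : ℝ) ^ k * (β / (β - 1)) ≤ 1 * (β / (β - 1)) := mul_le_mul_of_nonneg_right h5 hc
      _ = _ := one_mul _
  have h3 : |∑ j ∈ Finset.Ico (n - r) (n + L), dA U k i j a ℓ B b| ≤ 2 * (L + r) := by
    refine (Finset.abs_sum_le_sum_abs _ _).trans ?_
    refine (Finset.sum_le_sum fun j _ => dA_le hw.meas k i j hℓ hb).trans ?_
    rw [Finset.sum_const, Nat.card_Ico, nsmul_eq_mul]
    have : ((n + L - (n - r) : ℕ) : ℝ) ≤ L + r := by
      have : n + L - (n - r) ≤ L + r := by omega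
      exact_mod_cast this
    linarith
  exact (abs_add_le _ _).trans (add_le_add h3 (h1.trans (mul_le_mul_of_nonneg_left h2 (by norm_num))))

/-- second moments of the increments -/
theorem M_var (hβ : 1 < β) {n m m' L r K : ℕ} {a ℓ : ℝ} (hw : Wd U β n m a ℓ) (hm : n + L ≤ m) (h : NB U n r K a ℓ) {k : ℕ} (hk : k < K) (i : ℕ)
    {B : ℕ} (hB : 1 ≤ B) (hw' : ∀ b < B, Wd U β (n + L) m' (a + b * (ℓ / B)) (ℓ / B)) (hL : β / (β - 1) ≤ L) (hL1 : 1 ≤ L) :
    ∑ b ∈ Finset.range B, (M U k i (a + b * (ℓ / B)) (ℓ / B) - M U k i a ℓ) ^ 2 ≤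
      B * (2 * W U n r k i a ℓ + 80 * L ^ 2 * (1 / 2) ^ k) := by
  have hℓ := hw.pos
  have hU := hw.meas
  have hc : 0 ≤ β / (β - 1) := div_nonneg (by linarith) (by linarith)
  have hk0 : (0:ℝ) < (1 / 2) ^ k := by positivity
  have hk1 : (1 / 2 : ℝ) ^ k ≤ 1 := pow_le_one₀ (by norm_num) (by norm_num)
  have hB0 : (0:ℝ) < B := by exact_mod_cast hB
  have hL0 : (1:ℝ) ≤ L := by exact_mod_cast hL1
  set P : ℕ → ℝ := fun b => ∑ j ∈ Finset.Ico (n - r) n, dA U k i j a ℓ B b with hP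
  set R : ℕ → ℝ := fun b => ∑ j ∈ Finset.Ico n (n + L), dA U k i j a ℓ B b + dT U k i (n + L) a ℓ B b with hR
  have hdec : ∀ b ∈ Finset.range B, (M U k i (a + b * (ℓ / B)) (ℓ / B) - M U k i a ℓ) ^ 2 ≤ 2 * P b ^ 2 + 2 * R b ^ 2 := by
    intro b hb
    rw [inc_eq (n := n) (L := L) hℓ h hk i (Finset.mem_range.mp hb)]
    have e : ∑ j ∈ Finset.Ico (n - r) (n + L), dA U k i j a ℓ B b + dT U k i (n + L) a ℓ B b = P b + R b := by
      rw [hP, hR]
      simp only
      rw [← Finset.sum_Ico_consecutive _ (show n - r ≤ n by omega) (show n ≤ n + L by omega)]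
      ring
    rw [e]
    nlinarith [sq_nonneg (P b - R b)]
  -- the pending part
  have hPs : ∑ b ∈ Finset.range B, P b ^ 2 ≤ B * W U n r k i a ℓ := by
    have h1 : ∀ b ∈ Finset.range B, P b ^ 2 ≤ r * ∑ j ∈ Finset.Ico (n - r) n, dA U k i j a ℓ B b ^ 2 := by
      intro b _
      have h2 : (∑ j ∈ Finset.Ico (n - r) n, dA U k i j a ℓ B b) ^ 2 ≤
          ((Finset.Ico (n - r) n).card : ℝ) * ∑ j ∈ Finset.Ico (n - r) n, dA U k i j a ℓ B b ^ 2 :=
        sq_sum_le_card_mul_sum_sq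
      refine h2.trans ?_
      have h3 : (0:ℝ) ≤ ∑ j ∈ Finset.Ico (n - r) n, dA U k i j a ℓ B b ^ 2 := Finset.sum_nonneg fun j _ => sq_nonneg _
      refine mul_le_mul_of_nonneg_right ?_ h3
      rw [Nat.card_Ico]
      have : n - (n - r) ≤ r := by omega
      exact_mod_cast this
    refine (Finset.sum_le_sum h1).trans ?_
    rw [← Finset.mul_sum, Finset.sum_comm]
    unfold W
    rw [← mul_assoc (B:ℝ), mul_comm (B:ℝ), mul_assoc (r:ℝ), Finset.mul_sum (a := (B:ℝ))]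
    have hr0 : (0:ℝ) ≤ r := Nat.cast_nonneg r
    refine mul_le_mul_of_nonneg_left ?_ hr0
    refine Finset.sum_le_sum fun j _ => ?_
    exact sum_av_sub_sq_le ((measurable_haar k i).comp (hU j)) (fun t => haar_abs k i _) a hℓ hB
  -- the new part
  have hRsup : ∀ b ∈ Finset.range B, |R b| ≤ 4 * L := by
    intro b hb
    rw [hR]
    simp only
    have h1 := dT_le hβ hw k i (hw' b (Finset.mem_range.mp hb))
    have h2 : (1 / 2 : ℝ) ^ k * (β / (β - 1)) ≤ L := by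
      calc (1 / 2 : ℝ) ^ k * (β / (β - 1)) ≤ 1 * (β / (β - 1)) := mul_le_mul_of_nonneg_right hk1 hc
        _ ≤ L := by rw [one_mul]; exact hL
    have h3 : |∑ j ∈ Finset.Ico n (n + L), dA U k i j a ℓ B b| ≤ 2 * L := by
      refine (Finset.abs_sum_le_sum_abs _ _).trans ?_
      refine (Finset.sum_le_sum fun j _ => dA_le hU k i j hℓ (Finset.mem_range.mp hb)).trans ?_
      rw [Finset.sum_const, Nat.card_Ico, nsmul_eq_mul, Nat.add_sub_cancel_left]
      linarith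
    refine (abs_add_le _ _).trans ?_
    linarith
  have hRsum : ∑ b ∈ Finset.range B, |R b| ≤ B * (10 * L * (1 / 2) ^ k) := by
    have h1 : ∀ b ∈ Finset.range B, |R b| ≤ ∑ j ∈ Finset.Ico n (n + L),
        (av (fun x => ind k i (U j x)) (a + b * (ℓ / B)) (ℓ / B) + (1 / 2) ^ k) + 2 * (L * (1 / 2) ^ k) := by
      intro b hb
      obtain ⟨g1, g2, g3⟩ := child_mem (a := a) hℓ (Finset.mem_range.mp hb)
      rw [hR]
      simp only
      have h1 := dT_le hβ hw k i (hw' b (Finset.mem_range.mp hb))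
      have h2 : (1 / 2 : ℝ) ^ k * (β / (β - 1)) ≤ L * (1 / 2) ^ k := by
        rw [mul_comm]
        exact mul_le_mul_of_nonneg_right hL hk0.le
      have h3 : |∑ j ∈ Finset.Ico n (n + L), dA U k i j a ℓ B b| ≤ ∑ j ∈ Finset.Ico n (n + L),
        (av (fun x => ind k i (U j x)) (a + b * (ℓ / B)) (ℓ / B) + (1 / 2) ^ k) := by
        refine (Finset.abs_sum_le_sum_abs _ _).trans (Finset.sum_le_sum fun j hj => ?_)
        unfold dA
        have h4 := A_le hw k i (Finset.mem_Ico.mp hj).1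
        have h5 : β⁻¹ ^ (j - n) ≤ 1 := pow_le_one₀ (inv_nonneg.2 (by linarith)) (inv_le_one_of_one_le₀ hβ.le)
        have h6 : (1 / 2 : ℝ) ^ k * β⁻¹ ^ (j - n) ≤ (1 / 2) ^ k := mul_le_of_le_one_right hk0.le h5
        refine (abs_sub _ _).trans ?_
        linarith [abs_A_le_av_ind hU k i j (a + b * (ℓ / B)) g2]
      refine (abs_add_le _ _).trans ?_
      linarith
    refine (Finset.sum_le_sum h1).trans ?_
    rw [Finset.sum_add_distrib, Finset.sum_comm]
    have h7 : ∀ j ∈ Finset.Ico n (n + L), ∑ b ∈ Finset.range B,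
        (av (fun x => ind k i (U j x)) (a + b * (ℓ / B)) (ℓ / B) + (1 / 2) ^ k) ≤ B * (5 * (1 / 2) ^ k) := by
      intro j hj
      have hj' := Finset.mem_Ico.mp hj
      rw [Finset.sum_add_distrib, av_children (ii_ind_U hU k i j) a hℓ hB]
      have h8 := av_ind_le hw k i hj'.1 (lt_of_lt_of_le hj'.2 hm)
      rw [Finset.sum_const, Finset.card_range, nsmul_eq_mul]
      have := mul_le_mul_of_nonneg_left h8 hB0.le
      linarith
    refine (add_le_add_left (Finset.sum_le_sum h7) _).trans ?_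
    rw [Finset.sum_const, Finset.sum_const, Finset.card_range, Nat.card_Ico, Nat.add_sub_cancel_left, nsmul_eq_mul, nsmul_eq_mul]
    have h9 : (0:ℝ) ≤ B * (L * (1 / 2) ^ k) := by positivity
    nlinarith
  have hRs : ∑ b ∈ Finset.range B, R b ^ 2 ≤ B * (40 * L ^ 2 * (1 / 2) ^ k) := by
    have h1 : ∀ b ∈ Finset.range B, R b ^ 2 ≤ 4 * L * |R b| := by
      intro b hb
      rw [← sq_abs, pow_two]
      exact mul_le_mul_of_nonneg_right (hRsup b hb) (abs_nonneg _)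
    refine (Finset.sum_le_sum h1).trans ?_
    rw [← Finset.mul_sum]
    have := mul_le_mul_of_nonneg_left hRsum (show (0:ℝ) ≤ 4 * L by positivity)
    refine this.trans (le_of_eq ?_)
    ring
  refine (Finset.sum_le_sum hdec).trans ?_
  rw [Finset.sum_add_distrib, ← Finset.mul_sum, ← Finset.mul_sum]
  have : (B:ℝ) * (2 * W U n r k i a ℓ + 80 * L ^ 2 * (1 / 2) ^ k) =
      2 * (B * W U n r k i a ℓ) + 2 * (B * (40 * L ^ 2 * (1 / 2) ^ k)) := by ring
  rw [this]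
  linarith

end Pool.Agent.Helper68.LD2
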